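import Pool.Agent.Helper92.BW.GoalsB
import Pool.Agent.Helper60.FR.CPV

/-! Packet BW-VFI: the volume. -/

namespace Pool.Agent.Helper34.BW

open MeasureTheory Pool.Agent.Helper92.BW Pool.Agent.Bin Pool.Agent.Helper60.FR
open Pool.Agent.Helper92.FR hiding DepStmt

theorem prod_range_map (n : ℕ) (f : ℕ → Qn) :
    (Qn.prod ((List.range n).map f)).val = ∏ i : Fin n, (f i).val := by
  rw [Qn.val_prod, List.map_map, ← Finset.prod_range fun i => (f i).val]
  induction n with
  | zero => simp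
  | succ n ih =>
    rw [List.range_succ, List.map_append, List.prod_append, ih, Finset.prod_range_succ]
    simp

/-- The numerical inequality. -/
theorem num {n q : ℕ} (hn : 1 ≤ n) (hq : 1 ≤ q) {V P : ℝ} (hV : 0 ≤ V)
    (h1 : (1 - (n : ℝ) / ((4 * n ^ 2 * q : ℕ) : ℝ)) ^ n * V ≤ P)
    (h2 : P ≤ (1 + (n : ℝ) / ((4 * n ^ 2 * q : ℕ) : ℝ)) ^ n * V) : |P - V| ≤ V / q := by
  have hnR : (1 : ℝ) ≤ n := by exact_mod_cast hn
  have hqR : (1 : ℝ) ≤ q := by exact_mod_cast hq
  have hn0 : (0 : ℝ) < n := by linarith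
  have hq0 : (0 : ℝ) < q := by linarith
  have hx : (n : ℝ) / ((4 * n ^ 2 * q : ℕ) : ℝ) = 1 / (4 * n * q) := by
    push_cast
    rw [div_eq_div_iff (by positivity) (by positivity)]
    ring
  rw [hx] at h1 h2
  set x : ℝ := 1 / (4 * n * q) with hxd
  set t : ℝ := 1 / (4 * q) with ht
  have hnx : (n : ℝ) * x = t := by
    rw [hxd, ht]
    field_simp
  have hx0 : 0 < x := by positivity
  have ht0 : 0 < t := by positivity
  have ht4 : t ≤ 1 / 4 := by
    rw [ht]
    exact one_div_le_one_div_of_le (by norm_num) (by linarith)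
  have hxt : x ≤ t := by
    rw [← hnx]
    nlinarith
  have hb1 : 1 - t ≤ (1 - x) ^ n := by
    have := one_add_mul_le_pow (a := -x) (by linarith) n
    have h3 : (1 : ℝ) + n * -x = 1 - t := by rw [← hnx]; ring
    have h4 : (1 : ℝ) + -x = 1 - x := by ring
    rw [h3, h4] at this
    exact this
  have hb2 : (1 + x) ^ n * (1 - x) ^ n ≤ 1 := by
    rw [← mul_pow]
    refine pow_le_one₀ ?_ ?_
    · nlinarith
    · nlinarith
  have hb3 : (1 + x) ^ n ≤ 1 + 4 * t := by
    have h5 : 0 < 1 - t := by linarith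
    have h6 : 0 ≤ (1 + x) ^ n := by positivity
    have h7 : (1 + x) ^ n * (1 - t) ≤ 1 := (mul_le_mul_of_nonneg_left hb1 h6).trans hb2
    have h8 : (1 : ℝ) ≤ (1 + 4 * t) * (1 - t) := by nlinarith
    by_contra hc
    have h9 : 1 + 4 * t < (1 + x) ^ n := not_le.1 hc
    have h10 := mul_lt_mul_of_pos_right h9 h5
    linarith
  have h4t : V / q = 4 * t * V := by
    rw [ht]
    field_simp
  rw [h4t, abs_le]
  constructor
  · have := mul_le_mul_of_nonneg_right hb1 hV
    nlinarith
  · have := mul_le_mul_of_nonneg_right hb3 hV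
    linarith

theorem finite_ix (n : ℕ) (cr : List (List Qn × Qn)) : Finite (Ix n cr) := by
  have h : Set.Finite {r : List Qn × Qn | r ∈ cr ∧ lowr n r < n} :=
    (List.finite_toSet cr).subset fun r hr => hr.1
  exact h.to_subtype

theorem vfi (hMNA : MnaStmt) (hFRA : FraStmt) (hTBV : TbvStmt) (hCIX : CixStmt) : VfiStmt := by
  intro n k q par cr U hn hq hR hW
  have := finite_ix n cr
  let : Fintype (Ix n cr) := Fintype.ofFinite _
  have hD : 1 ≤ 4 * n ^ 2 * q := Nat.mul_pos (by positivity) hq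
  have hnD : n < 4 * n ^ 2 * q := by
    have h1 : n * 1 ≤ n * n := Nat.mul_le_mul_left n hn
    have h2 : 4 * n ^ 2 * 1 ≤ 4 * n ^ 2 * q := Nat.mul_le_mul_left _ hq
    nlinarith
  have hqc : 1 ≤ qc n := by
    have h1 : 0 < 4 * (n + 1) ^ 2 := by positivity
    exact h1
  have hG : 1 ≤ 2 ^ (k + 1) * n * qc n * (4 * n ^ 2 * q) :=
    Nat.mul_pos (Nat.mul_pos (Nat.mul_pos (by positivity) hn) hqc) hD
  obtain ⟨hCh, hFr⟩ := hFRA n k par cr U _ _ hn hD rfl hR hW
  obtain ⟨hTab, hroot⟩ := hTBV n k par cr U _ hn hG hR hW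
  obtain ⟨ez1, ez2⟩ := hCIX.2 k (2 ^ (k + 1) * n * qc n * (4 * n ^ 2 * q))
  have hro := hroot ⟨_, ez1⟩ rfl
  set G := 2 ^ (k + 1) * n * qc n * (4 * n ^ 2 * q) with hGd
  -- the set
  have hset : {u : Fin n → ℝ | ∀ r ∈ cr, -r.2.val ≤ ip (lv n r.1) u} =
      PS (aS n cr) (sS n cr) 1 := by
    ext u
    constructor
    · intro h r
      have := h r.1 r.2.1
      rw [one_mul]
      exact this
    · intro h r hr
      rcases Nat.lt_or_ge (lowr n r) n with hl | hl
      · have := h ⟨r, hr, hl⟩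
        rw [one_mul] at this
        exact this
      · have h0 : ip (lv n r.1) u = 0 := by
          unfold ip
          refine Finset.sum_eq_zero fun j _ => ?_
          have h1 : lv n r.1 j = 0 := by
            by_contra hc
            have := (hW.chain r hr j j.2 hc).1
            omega
          rw [h1, zero_mul]
        rw [h0]
        have := hR.s0 r hr
        linarith
  have hfin : volume (PS (aS n cr) (sS n cr) 1) ≠ ⊤ := by
    rw [← hset]
    set B : Fin n → ℝ := fun l => ∑ i : Fin (n + 1), |lv n (U.getD i []) l| with hB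
    have hsub : {u : Fin n → ℝ | ∀ r ∈ cr, -r.2.val ≤ ip (lv n r.1) u} ⊆ Set.Icc (-B) B := by
      intro u hu
      obtain ⟨b, hb0, hb1, hb2⟩ := hR.hull u hu
      have hbl : ∀ i, b i ≤ 1 := by
        intro i
        rw [← hb1]
        exact Finset.single_le_sum (fun j _ => hb0 j) (Finset.mem_univ i)
      have habs : ∀ l, |u l| ≤ B l := by
        intro l
        rw [hb2 l, hB]
        refine (Finset.abs_sum_le_sum_abs _ _).trans (Finset.sum_le_sum fun i _ => ?_)
        rw [abs_mul, abs_of_nonneg (hb0 i)]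
        exact mul_le_of_le_one_left (abs_nonneg _) (hbl i)
      exact ⟨fun l => (abs_le.1 (habs l)).1, fun l => (abs_le.1 (habs l)).2⟩
    exact ((measure_mono hsub).trans_lt isCompact_Icc.measure_lt_top).ne
  have hs : ∀ r : Ix n cr, 0 ≤ sS n cr r := fun r => hR.s0 r.1 r.2.1
  obtain ⟨m1, m2⟩ := hMNA n k (Ix n cr) (Cell k G) (fun x => par.getD x x) (lowS n cr) (aS n cr)
    (sS n cr) G (4 * n ^ 2 * q) (ctrS k G) (gS n k par cr U) (oS n k par cr U) (mS n k par cr U)
    (xS n k G par cr U) (nS n k G par cr U) ⟨_, ez1⟩ hCh hs hG hnD hFr hTab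
    (fun l => ez2 l l.2) hfin
  have hval : (volQ k n G cr U par).val = (∏ v, mS n k par cr U v / G) *
      ∏ c : Rt (fun x => par.getD x x) n, nS n k G par cr U c.1 ⟨_, ez1⟩ := by
    unfold volQ
    rw [Qn.val_mul, Qn.val_ofBN, prod_range_map]
    have h1 : (((rootp k n G par (tabs k n G cr
        ((List.range n).map fun v => fr n k U (fam n par cr v) v) par)).val : ℕ) : ℝ) =
        ∏ c : Rt (fun x => par.getD x x) n, nS n k G par cr U c.1 ⟨_, ez1⟩ := hro
    rw [h1, mul_comm]
    congr 1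
    refine Finset.prod_congr rfl fun v _ => ?_
    rw [Qn.val_mul, val_invNat hG]
    unfold mS
    ring
  rw [hset, hval]
  exact num hn hq ENNReal.toReal_nonneg m1 m2

end Pool.Agent.Helper34.BW
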